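import Mathlib

/-!
# Setwise convergence of the shifted process does not imply total variation convergence

Let `ν` be the law of a bi-infinite sequence of independent fair bits, and let the state space be
the Cantor space `ℤ → Bool`. The stationary process is `X' k = k`-th shift of a sequence with law
`ν`, and `X` is the same process started from `ν` conditioned on the bit number `0` being `true`.
For a measurable set `A` of paths, `P (θ_n X ∈ A)` is an inner product of the indicator of `A` with
`1 +` the sign of the bit number `-n`, so that it converges by Bessel's inequality. But the bit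
number `-n` of the state at time `n` is always `true` for `X`, and a fair bit for `X'`.
-/

set_option autoImplicit false

open MeasureTheory ProbabilityTheory Filter Topology Set
open scoped ENNReal

namespace Pool.Agent.Results.MP_a1f67d_pr.SetwiseNotTotalVariation

/-- Bi-infinite sequences of bits. -/
abbrev Cantor : Type := ℤ → Bool

/-- The fair coin. -/
noncomputable def coin : Measure Bool :=
  (2⁻¹ : ℝ≥0∞) • Measure.dirac true + (2⁻¹ : ℝ≥0∞) • Measure.dirac false

instance : IsProbabilityMeasure coin := ⟨by simp [coin, ENNReal.inv_two_add_inv_two]⟩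

/-- Independent fair bits. -/
noncomputable def nu : Measure Cantor := Measure.infinitePi (fun _ : ℤ => coin)

instance : IsProbabilityMeasure nu := by unfold nu; infer_instance

/-- The `n`-th power of the shift. -/
def sh (n : ℤ) (x : Cantor) : Cantor := fun i => x (i + n)

theorem measurable_sh (n : ℤ) : Measurable (sh n) :=
  measurable_pi_lambda _ fun i => measurable_pi_apply (i + n)

theorem sh_add (m n : ℤ) (x : Cantor) : sh m (sh n x) = sh (m + n) x := by
  funext i; simp [sh, add_assoc]

theorem map_sh (n : ℤ) : nu.map (sh n) = nu := by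
  unfold nu
  refine Measure.eq_infinitePi _ ?_
  intro s t ht
  have hm : MeasurableSet ((↑s : Set ℤ).pi t) :=
    MeasurableSet.pi s.countable_toSet fun i _ => ht i
  rw [Measure.map_apply (measurable_sh n) hm]
  have e : sh n ⁻¹' ((↑s : Set ℤ).pi t) =
      ((↑(s.map (addRightEmbedding n)) : Set ℤ).pi (fun i => t (i - n))) := by
    ext x
    simp only [sh, Set.mem_preimage, Set.mem_pi, Finset.coe_map, Set.mem_image,
      Finset.mem_coe, addRightEmbedding_apply]
    constructor
    · rintro h _ ⟨i, hi, rfl⟩
      rw [add_sub_cancel_right]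
      exact h i hi
    · intro h i hi
      have := h (i + n) ⟨i, hi, rfl⟩
      rwa [add_sub_cancel_right] at this
  rw [e, Measure.infinitePi_pi _ (fun i _ => ht (i - n)), Finset.prod_map]
  refine Finset.prod_congr rfl fun i _ => ?_
  rw [addRightEmbedding_apply, add_sub_cancel_right]

/-- The sign of a bit: `1` for `true`, `-1` for `false`. -/
def sgn (b : Bool) : ℝ := if b then 1 else -1

theorem measurable_sgn : Measurable sgn := measurable_of_countable _

theorem abs_sgn (b : Bool) : |sgn b| = 1 := by cases b <;> simp [sgn]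

theorem sgn_sq (b : Bool) : sgn b * sgn b = 1 := by cases b <;> simp [sgn]

/-- The sign of the bit number `-n`. -/
def xi (n : ℕ) (x : Cantor) : ℝ := sgn (x (-(n : ℤ)))

theorem measurable_xi (n : ℕ) : Measurable (xi n) :=
  measurable_sgn.comp (measurable_pi_apply _)

theorem integral_sgn : ∫ b, sgn b ∂coin = 0 := by
  rw [coin, integral_add_measure, integral_smul_measure, integral_smul_measure,
    integral_dirac, integral_dirac]
  · simp [sgn]
  · exact (integrable_dirac (by simp)).smul_measure (by simp)
  · exact (integrable_dirac (by simp)).smul_measure (by simp)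

theorem integral_xi (n : ℕ) : ∫ x, xi n x ∂nu = 0 := by
  have h := integral_map (μ := nu) (φ := fun x : Cantor => x (-(n : ℤ)))
    (measurable_pi_apply _).aemeasurable (f := sgn) measurable_sgn.aestronglyMeasurable
  rw [nu, Measure.infinitePi_map_eval, integral_sgn] at h
  exact h.symm

theorem memLp_xi (n : ℕ) : MemLp (xi n) 2 nu :=
  MemLp.of_bound (measurable_xi n).aestronglyMeasurable 1
    (Eventually.of_forall fun x => by rw [Real.norm_eq_abs]; exact (abs_sgn _).le)

theorem indep_xi : iIndepFun xi nu := by
  have h := iIndepFun_infinitePi (P := fun _ : ℤ => coin) (X := fun _ : ℤ => sgn)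
    (fun _ => measurable_sgn)
  have h2 := h.precomp (g := fun n : ℕ => -(n : ℤ)) (fun a b hab => by simpa using hab)
  exact h2

theorem integral_xi_mul (m n : ℕ) : ∫ x, xi m x * xi n x ∂nu = if m = n then 1 else 0 := by
  split_ifs with h
  · subst h
    simp [xi, sgn_sq]
  · have := (indep_xi.indepFun h).integral_fun_mul_eq_mul_integral
      (measurable_xi m).aestronglyMeasurable (measurable_xi n).aestronglyMeasurable
    rw [this, integral_xi, integral_xi, mul_zero]

theorem orthonormal_xi : Orthonormal ℝ (fun n : ℕ => (memLp_xi n).toLp (xi n)) := by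
  rw [orthonormal_iff_ite]
  intro m n
  rw [L2.inner_def]
  rw [← integral_xi_mul m n]
  refine integral_congr_ae ?_
  filter_upwards [(memLp_xi m).coeFn_toLp, (memLp_xi n).coeFn_toLp] with x h1 h2
  rw [h1, h2]
  simp [mul_comm]

/-- Bessel: the correlation of a measurable set with the bit number `-n` tends to zero. -/
theorem tendsto_xi (A : Set Cantor) (hA : MeasurableSet A) :
    Tendsto (fun n : ℕ => ∫ x in A, xi n x ∂nu) atTop (𝓝 0) := by
  have h1 : MemLp (A.indicator (fun _ : Cantor => (1 : ℝ))) 2 nu :=
    (memLp_indicator_const 2 hA (1 : ℝ) (Or.inr (measure_ne_top _ _)))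
  have h2 := orthonormal_xi.inner_products_summable (h1.toLp _)
  have h3 := h2.tendsto_atTop_zero
  have h4 : Tendsto (fun n : ℕ => ‖inner ℝ ((memLp_xi n).toLp (xi n)) (h1.toLp _)‖) atTop
      (𝓝 0) := by
    have := h3.sqrt
    simpa [Real.sqrt_sq_eq_abs] using this
  have h5 := tendsto_zero_iff_norm_tendsto_zero.mpr h4
  refine h5.congr fun n => ?_
  rw [L2.inner_def, ← integral_indicator hA]
  refine integral_congr_ae ?_
  filter_upwards [(memLp_xi n).coeFn_toLp, h1.coeFn_toLp] with x h6 h7
  rw [h6, h7]
  by_cases hx : x ∈ A <;> simp [hx]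

/-- The event that the bit number `-n` is `true`. -/
def C (n : ℕ) : Set Cantor := {x | x (-(n : ℤ)) = true}

theorem measurable_ev (i : ℤ) : Measurable (fun x : Cantor => x i) := measurable_pi_apply i

theorem measurableSet_C (n : ℕ) : MeasurableSet (C n) :=
  measurable_ev (-(n : ℤ)) (measurableSet_singleton true)

theorem nu_C (n : ℕ) : nu (C n) = 2⁻¹ := by
  have h : nu.map (fun x : Cantor => x (-(n : ℤ))) {true} = 2⁻¹ := by
    rw [nu, Measure.infinitePi_map_eval]
    simp [coin]
  rwa [Measure.map_apply (measurable_ev _) (measurableSet_singleton true)] at h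

theorem setIntegral_xi (n : ℕ) (A : Set Cantor) :
    ∫ x in A, xi n x ∂nu = 2 * nu.real (C n ∩ A) - nu.real A := by
  have e : xi n = fun x => 2 * (C n).indicator (fun _ => (1 : ℝ)) x - 1 := by
    funext x
    by_cases h : x (-(n : ℤ)) = true
    · have : x ∈ C n := h
      simp [xi, sgn, h, this]; norm_num
    · have : x ∉ C n := h
      simp only [Bool.not_eq_true] at h
      simp [xi, sgn, h, this]
  rw [e, integral_sub, integral_const_mul, integral_indicator (measurableSet_C n)]
  · simp [Measure.real, Measure.restrict_apply (measurableSet_C n)]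
  · exact ((integrable_const (1 : ℝ)).indicator (measurableSet_C n)).const_mul 2
  · exact integrable_const _

/-- The law `ν` conditioned on the bit number `0` being `true`. -/
noncomputable def nu1 : Measure Cantor := (2 : ℝ≥0∞) • nu.restrict (C 0)

instance : IsProbabilityMeasure nu1 := ⟨by
  simp only [nu1, Measure.smul_apply, Measure.restrict_apply MeasurableSet.univ, univ_inter,
    nu_C, smul_eq_mul]
  exact ENNReal.mul_inv_cancel (by norm_num) (by norm_num)⟩

/-- Paths of the deterministic motion. -/
def path (x : Cantor) : ℕ → Cantor := fun k => sh k x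

theorem measurable_path : Measurable path :=
  measurable_pi_lambda _ fun k => measurable_sh k

theorem nu1_shift (n : ℕ) (A : Set Cantor) (hA : MeasurableSet A) :
    nu1 (sh n ⁻¹' A) = 2 * nu (C n ∩ A) := by
  rw [nu1, Measure.smul_apply, Measure.restrict_apply (measurable_sh n hA), smul_eq_mul]
  congr 1
  have h : nu.map (sh n) (C n ∩ A) = nu (C n ∩ A) := by rw [map_sh]
  rw [Measure.map_apply (measurable_sh n) ((measurableSet_C n).inter hA)] at h
  rw [← h]
  congr 1
  ext x
  simp [C, sh, and_comm]

/-- There are a measurable space `E` (the Cantor space of bi-infinite sequences of bits) and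
`E`-valued processes `X`, `X'` such that `P (θ_n X ∈ A)` converges to `P' (X' ∈ A)` for every
measurable set `A` of paths, while the total variation distance between the laws of `θ_n X` and of
`X'` does not tend to zero; in fact it is at least `1 / 2` for every `n`. -/
theorem result :
    ∃ (E : Type) (_ : MeasurableSpace E) (Ω : Type) (_ : MeasurableSpace Ω)
      (P P' : Measure Ω) (X X' : ℕ → Ω → E),
      IsProbabilityMeasure P ∧ IsProbabilityMeasure P' ∧
      (∀ k, Measurable (X k)) ∧ (∀ k, Measurable (X' k)) ∧
      (∀ A : Set (ℕ → E), MeasurableSet A →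
        Tendsto (fun n : ℕ => P {ω | (fun k => X (n + k) ω) ∈ A}) atTop
          (𝓝 (P' {ω | (fun k => X' k ω) ∈ A}))) ∧
      ¬ Tendsto (fun n : ℕ => ⨆ A : {A : Set (ℕ → E) // MeasurableSet A},
          |(P {ω | (fun k => X (n + k) ω) ∈ A.1}).toReal -
            (P' {ω | (fun k => X' k ω) ∈ A.1}).toReal|) atTop (𝓝 0) ∧
      ∀ n : ℕ, ∃ A : Set (ℕ → E), MeasurableSet A ∧
        (P {ω | (fun k => X (n + k) ω) ∈ A}).toReal -
            (P' {ω | (fun k => X' k ω) ∈ A}).toReal = 1 / 2 := by
  have key : ∀ n : ℕ, ∃ A : Set (ℕ → Cantor), MeasurableSet A ∧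
      (nu1 {ω | (fun k => sh ((n + k : ℕ) : ℤ) ω) ∈ A}).toReal -
        (nu {ω | (fun k : ℕ => sh k ω) ∈ A}).toReal = 1 / 2 := by
    intro n
    refine ⟨(fun y : ℕ → Cantor => y 0) ⁻¹' (C n), measurable_pi_apply 0 (measurableSet_C n), ?_⟩
    have e1 : {ω : Cantor | (fun k => sh ((n + k : ℕ) : ℤ) ω) ∈
        (fun y : ℕ → Cantor => y 0) ⁻¹' (C n)} = sh n ⁻¹' (C n) := by
      ext x; simp
    have e2 : {ω : Cantor | (fun k : ℕ => sh k ω) ∈
        (fun y : ℕ → Cantor => y 0) ⁻¹' (C n)} = C n := by
      ext x; simp [sh, C]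
    rw [e1, e2, nu1_shift n _ (measurableSet_C n), inter_self, nu_C]
    rw [ENNReal.mul_inv_cancel (by norm_num) (by norm_num)]
    simp
    norm_num
  refine ⟨Cantor, inferInstance, Cantor, inferInstance, nu1, nu, fun k => sh k, fun k => sh k,
    inferInstance, inferInstance, fun k => measurable_sh k, fun k => measurable_sh k, ?_, ?_, key⟩
  · intro A hA
    set B : Set Cantor := path ⁻¹' A with hB
    have hBm : MeasurableSet B := measurable_path hA
    have e1 : ∀ n : ℕ, nu1 {ω | (fun k => sh ((n + k : ℕ) : ℤ) ω) ∈ A} = 2 * nu (C n ∩ B) := by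
      intro n
      rw [← nu1_shift n B hBm]
      congr 1
      ext x
      have : (fun k : ℕ => sh ((n + k : ℕ) : ℤ) x) = path (sh n x) := by
        funext k
        rw [path, sh_add]
        congr 1
        push_cast
        ring
      simp only [Set.mem_ofPred_eq, this, hB, mem_preimage]
    have e2 : {ω : Cantor | (fun k : ℕ => sh k ω) ∈ A} = B := rfl
    rw [e2]
    simp_rw [e1]
    have h1 := tendsto_xi B hBm
    have h2 : Tendsto (fun n : ℕ => (2 * nu (C n ∩ B)).toReal) atTop (𝓝 (nu B).toReal) := by
      have h3 : Tendsto (fun n : ℕ => (∫ x in B, xi n x ∂nu) + nu.real B) atTop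
          (𝓝 (0 + nu.real B)) := h1.add tendsto_const_nhds
      rw [zero_add] at h3
      refine h3.congr fun n => ?_
      rw [setIntegral_xi n B]
      simp [Measure.real, ENNReal.toReal_mul]
    have h4 : ∀ n : ℕ, 2 * nu (C n ∩ B) ≠ ⊤ := fun n =>
      ENNReal.mul_ne_top (by norm_num) (measure_ne_top _ _)
    have h5 := ENNReal.tendsto_ofReal h2
    rw [ENNReal.ofReal_toReal (measure_ne_top _ _)] at h5
    refine h5.congr fun n => ?_
    rw [ENNReal.ofReal_toReal (h4 n)]
  · intro h
    have hle : ∀ n : ℕ, (1 / 2 : ℝ) ≤ ⨆ A : {A : Set (ℕ → Cantor) // MeasurableSet A},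
        |(nu1 {ω | (fun k => sh ((n + k : ℕ) : ℤ) ω) ∈ A.1}).toReal -
          (nu {ω | (fun k : ℕ => sh k ω) ∈ A.1}).toReal| := by
      intro n
      obtain ⟨A, hA, hA2⟩ := key n
      have hb : BddAbove (Set.range fun A : {A : Set (ℕ → Cantor) // MeasurableSet A} =>
          |(nu1 {ω | (fun k => sh ((n + k : ℕ) : ℤ) ω) ∈ A.1}).toReal -
            (nu {ω | (fun k : ℕ => sh k ω) ∈ A.1}).toReal|) := by
        refine ⟨1, ?_⟩
        rintro _ ⟨A, rfl⟩
        have a1 : (nu1 {ω | (fun k => sh ((n + k : ℕ) : ℤ) ω) ∈ A.1}).toReal ≤ 1 :=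
          ENNReal.toReal_le_of_le_ofReal zero_le_one (by simpa using prob_le_one)
        have a2 : (nu {ω | (fun k : ℕ => sh k ω) ∈ A.1}).toReal ≤ 1 :=
          ENNReal.toReal_le_of_le_ofReal zero_le_one (by simpa using prob_le_one)
        have a3 : 0 ≤ (nu1 {ω | (fun k => sh ((n + k : ℕ) : ℤ) ω) ∈ A.1}).toReal :=
          ENNReal.toReal_nonneg
        have a4 : 0 ≤ (nu {ω | (fun k : ℕ => sh k ω) ∈ A.1}).toReal := ENNReal.toReal_nonneg
        simp only [abs_le]
        constructor <;> linarith
      refine le_trans ?_ (le_ciSup hb ⟨A, hA⟩)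
      rw [hA2]
      norm_num
    have := ge_of_tendsto' h hle
    norm_num at this

end Pool.Agent.Results.MP_a1f67d_pr.SetwiseNotTotalVariation
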